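import Pool.Agent.H361R2.PP.Iface3

/-!
PP-SM4 of helper361's project: translation of the engine statements.
-/

set_option autoImplicit false

open Finset

namespace Pool.Agent.H372R2.PPSM4

open Pool.Agent.H361R2.PP
open Pool.Agent.H410R2

theorem rho_lt {p : ℕ} (a : ℕ) (hp : 1 ≤ p) : rho p a < p := Nat.mod_lt _ hp

theorem not_prime_pow {J : ℕ} (hJ : 1 ≤ J) : ¬ (2 ^ 2 ^ J).Prime := by
  apply Nat.Prime.not_prime_pow
  calc 2 = 2 ^ 1 := rfl
    _ ≤ 2 ^ J := Nat.pow_le_pow_right (by norm_num) hJ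

theorem term_mul {n : ℕ} (x y : Fin n → ℕ → ℝ) (σ : Fin n → Option ℕ) :
    AC.term x σ * AC.term y σ = AC.term (fun τ a => x τ a * y τ a) σ := by
  unfold AC.term
  rw [← Finset.prod_mul_distrib]
  apply Finset.prod_congr rfl
  intro τ _
  cases σ τ <;> simp

theorem term_occ {n : ℕ} (x : Fin n → ℕ → ℝ) (q : Fin n → ℝ) (σ : Fin n → Option ℕ) :
    AC.term x σ ^ 2 * AC.occ q σ = AC.term (fun τ a => x τ a ^ 2 * q τ) σ := by
  unfold AC.term AC.occ
  rw [← Finset.prod_pow, ← Finset.prod_mul_distrib]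
  apply Finset.prod_congr rfl
  intro τ _
  cases σ τ <;> simp

theorem abs_term_le {n : ℕ} (x : Fin n → ℕ → ℝ) (c0 : ℝ) (h1 : 1 ≤ c0)
    (h : ∀ τ a, |x τ a| ≤ c0) (σ : Fin n → Option ℕ) : |AC.term x σ| ≤ c0 ^ n := by
  unfold AC.term
  rw [Finset.abs_prod]
  calc _ ≤ ∏ τ : Fin n, c0 := by
        apply Finset.prod_le_prod
        · intros; exact abs_nonneg _
        · intro τ _
          cases hs : σ τ with
          | none => simpa using h1
          | some a => exact h τ a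
    _ = c0 ^ n := by simp

/-- the modified coefficients -/
noncomputable def cc {t : ℕ} (cf : ℕ → ℝ) (c0 : ℝ) (c : (Fin t → Option ℕ) → ℝ)
    (σ : Fin t → Option ℕ) : ℝ :=
  c σ * AC.term (fun _ a => - cf a) σ / c0 ^ (t + 1)

theorem abs_cc_le {t : ℕ} (cf : ℕ → ℝ) (c0 : ℝ) (c : (Fin t → Option ℕ) → ℝ) (h1 : 1 ≤ c0)
    (hcf : ∀ a, |cf a| ≤ c0) (hc : ∀ σ, |c σ| ≤ c0) (σ : Fin t → Option ℕ) :
    |cc cf c0 c σ| ≤ 1 := by
  have h0 : 0 < c0 := by linarith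
  unfold cc
  rw [abs_div, abs_mul, abs_of_pos (pow_pos h0 (t + 1)), div_le_one (pow_pos h0 _)]
  calc |c σ| * |AC.term (fun _ a => - cf a) σ| ≤ c0 * c0 ^ t := by
        apply mul_le_mul (hc σ) _ (abs_nonneg _) h0.le
        apply abs_term_le _ _ h1
        intro τ a
        rw [abs_neg]; exact hcf a
    _ = c0 ^ (t + 1) := by ring

theorem WW_cc {t : ℕ} (B : Finset ℕ) (cf : ℕ → ℝ) (c0 : ℝ) (c : (Fin t → Option ℕ) → ℝ)
    (x y : Fin t → ℕ → ℝ) (hxy : ∀ τ a, - cf a * x τ a = y τ a) :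
    AC.WW B (cc cf c0 c) x = AC.WW B c y / c0 ^ (t + 1) := by
  unfold AC.WW
  rw [Finset.sum_div]
  apply Finset.sum_congr rfl
  intro σ _
  have h := term_mul (fun _ a => - cf a) x σ
  have h2 : (fun (τ : Fin t) (a : ℕ) => - cf a * x τ a) = y := by
    funext τ a; exact hxy τ a
  simp only [h2] at h
  unfold cc
  rw [← h]
  ring

theorem main_cc {t : ℕ} (B : Finset ℕ) (cf : ℕ → ℝ) (c0 : ℝ) (h0 : 0 < c0)
    (c : (Fin t → Option ℕ) → ℝ) (q : Fin t → ℝ) (y : Fin t → ℕ → ℝ)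
    (hxy : ∀ τ a, cf a ^ 2 * q τ = y τ a) :
    ∑ σ ∈ AC.cfg t B, cc cf c0 c σ ^ 2 * AC.occ q σ =
      (∑ σ ∈ AC.cfg t B, c σ ^ 2 * AC.term y σ) / c0 ^ (2 * t + 2) := by
  rw [Finset.sum_div]
  apply Finset.sum_congr rfl
  intro σ _
  have h := term_occ (fun _ a => - cf a) q σ
  have h2 : (fun (τ : Fin t) (a : ℕ) => (- cf a) ^ 2 * q τ) = y := by
    funext τ a; rw [neg_sq]; exact hxy τ a
  simp only [h2] at h
  unfold cc
  rw [← h]
  have : c0 ^ (2 * t + 2) = (c0 ^ (t + 1)) ^ 2 := by ring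
  rw [this]
  have h3 : c0 ^ (t + 1) ≠ 0 := (pow_pos h0 _).ne'
  field_simp

theorem EF_mono {n K' K b J k : ℕ} {A V δ E' E : ℝ} (hK : K' ≤ K) (hA : 0 ≤ A) (hV : 0 < V)
    (hV1 : V ≤ 1) (hδ : 0 ≤ δ) (hE : E' ≤ E) (hE' : 0 ≤ E') :
    EN.EF n K' b J k A V δ E' ≤ EN.EF n K b J k A V δ E := by
  have hK' : (K' : ℝ) ≤ K := by exact_mod_cast hK
  have hK0 : (0 : ℝ) ≤ K' := Nat.cast_nonneg _
  have h1 : (K' : ℝ) / V ^ K' ≤ K / V ^ K := by
    apply div_le_div₀ (by positivity) hK' (by positivity)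
    exact pow_le_pow_of_le_one hV.le hV1 hK
  have h2 : Real.exp (K' * δ) ≤ Real.exp (K * δ) := by
    apply Real.exp_le_exp.mpr
    exact mul_le_mul_of_nonneg_right hK' hδ
  have h3 : (0 : ℝ) ≤ Real.exp (K' * δ) - 1 := by
    have := Real.add_one_le_exp ((K' : ℝ) * δ)
    have h4 : 0 ≤ (K' : ℝ) * δ := by positivity
    linarith
  have h5 : (0 : ℝ) < (1 / 2 : ℝ) ^ b := by positivity
  have h6 : (0 : ℝ) ≤ K / V ^ K := by positivity
  unfold EN.EF
  apply add_le_add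
  · apply mul_le_mul_of_nonneg_left _ hA
    apply mul_le_mul h1 (by linarith) (by linarith) h6
  · apply mul_le_mul
    · apply mul_le_mul_of_nonneg_right h1 (by positivity)
    · apply mul_le_mul_of_nonneg_left hE (by positivity)
    · positivity
    · positivity

theorem dl_nonneg (e : ℕ → ℕ) (ρ : ℕ → ℕ → ℕ) (P U : Finset ℕ) (hP : ∀ p ∈ P, 1 ≤ p) :
    0 ≤ EN.dl e ρ P U := by
  unfold EN.dl
  apply add_nonneg
  · apply Finset.sum_nonneg
    intro p _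
    positivity
  · apply Finset.sum_nonneg
    intro p hp
    have : 1 ≤ p := hP p (Finset.mem_filter.mp hp).1
    have h2 : (1 : ℝ) ≤ p := by exact_mod_cast this
    apply div_nonneg (by norm_num)
    linarith

theorem ET_mono {K' K : ℕ} (hK : K' ≤ K) (P : Finset ℕ) (D0 : ℕ) (Er : Finset ℕ → ℝ)
    (h : ∀ T, 0 ≤ Er T) : EN.ET K' P D0 Er ≤ EN.ET K P D0 Er := by
  unfold EN.ET
  apply Finset.sum_le_sum
  intro T _
  apply mul_le_mul_of_nonneg_right _ (h T)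
  exact pow_le_pow_left₀ (Nat.cast_nonneg _) (by exact_mod_cast hK) _

theorem ET_nonneg (K : ℕ) (P : Finset ℕ) (D0 : ℕ) (Er : Finset ℕ → ℝ)
    (h : ∀ T, 0 ≤ Er T) : 0 ≤ EN.ET K P D0 Er := by
  unfold EN.ET
  apply Finset.sum_nonneg
  intro T _
  exact mul_nonneg (by positivity) (h T)

/-- sums with the indicator -/
theorem sum_ind (S : Finset ℕ) (M : ℕ) (hM : ∀ n ∈ S, n < M) (f : ℕ → ℝ) :
    ∑ m ∈ range M, (if m ∈ S then (1 : ℝ) else 0) * f m = ∑ n ∈ S, f n := by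
  have h1 : ∑ m ∈ range M, (if m ∈ S then (1 : ℝ) else 0) * f m =
      ∑ m ∈ range M, (if m ∈ S then f m else 0) := by
    apply Finset.sum_congr rfl
    intro m _
    split_ifs <;> simp
  rw [h1, ← Finset.sum_filter]
  congr 1
  ext m
  simp only [Finset.mem_filter, Finset.mem_range]
  exact ⟨fun h => h.2, fun h => ⟨hM m h, h⟩⟩

theorem sm4 : EN.SecondW → EN.FourthW → Sm1 → Sm3 → Sm4 := by
  intro hS2 hS4 h1 h3 t C c0 hC hc0
  obtain ⟨K2, hK2, H2⟩ := hS2 t C hC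
  obtain ⟨K4, hK4, H4⟩ := hS4 t C hC
  refine ⟨max K2 K4, le_max_of_le_left hK2, ?_⟩
  intro o δ X b J D0 k0 P2' S Ω Er u D B Y Y1 SS V d E hJ hKb hKH hHJ hJ1 hP2 hDS hY hY1 hSS
    hΩ hEq hE hD0 hV hV1 hd1 hPi hB hdl hk0
  obtain ⟨hr, hrg, hFF⟩ := h1
  set K := max K2 K4 with hKdef
  have hK2K : K2 ≤ K := le_max_left _ _
  have hK4K : K4 ≤ K := le_max_right _ _
  have hc00 : (0 : ℝ) < c0 := by linarith
  -- the primes
  have hP1 : ∀ p ∈ P1 (HH X) J, p.Prime ∧ HH X < p ∧ p ≤ 2 ^ 2 ^ J := by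
    intro p hp
    simp only [P1, Finset.mem_filter, Finset.mem_range] at hp
    exact ⟨hp.2.1, hp.2.2, hp.1.le⟩
  have hP2a : ∀ p ∈ P2', p.Prime ∧ HH X < p ∧ 2 ^ 2 ^ J < p := by
    intro p hp
    obtain ⟨hpp, hple⟩ := hP2 p hp
    refine ⟨hpp, lt_of_lt_of_le hHJ hple, lt_of_le_of_ne hple ?_⟩
    intro he
    rw [← he] at hpp
    exact not_prime_pow hJ1 hpp
  have hpr : ∀ p ∈ P1 (HH X) J ∪ P2', p.Prime := by
    intro p hp
    rcases Finset.mem_union.mp hp with h | h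
    · exact (hP1 p h).1
    · exact (hP2 p h).1
  have hge1 : ∀ p ∈ P1 (HH X) J ∪ P2', 1 ≤ p := fun p hp => (hpr p hp).one_lt.le
  have hge1a : ∀ p ∈ P1 (HH X) J, 1 ≤ p := fun p hp => hge1 p (Finset.mem_union_left _ hp)
  have hge1b : ∀ p ∈ P2', 1 ≤ p := fun p hp => hge1 p (Finset.mem_union_right _ hp)
  have hErn : ∀ T, 0 ≤ Er T := hEq.2.1
  have hM : ∀ n ∈ S, n < S.sup id + 1 := by
    intro n hn
    exact Nat.lt_succ_of_le (Finset.le_sup (f := id) hn)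
  obtain ⟨hEqd, hDens⟩ := h3 o (P1 (HH X) J ∪ P2') S Ω Er (S.sup id + 1) D0 hpr hEq hM
  set M := S.sup id + 1 with hMdef
  set w : ℕ → ℝ := fun n => if n ∈ S then 1 else 0 with hw
  have hw0 : ∀ m, 0 ≤ w m := by
    intro m; simp only [hw]; split_ifs <;> norm_num
  have hd0 : 0 ≤ d := by
    have := hdl ∅ (Finset.empty_subset _) (by simp)
    exact le_trans (dl_nonneg _ _ _ _ hge1) this
  have hsetup : ∀ K' ≤ K, EN.Setup K' b J (HH X) D0 (P1 (HH X) J) P2' B rho (kk o) (ee o) w M Ω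
      Er := by
    intro K' hK'
    refine ⟨hK'.trans hKb, hK'.trans hKH, hP1, hP2a, hDens, hw0, hΩ, hEqd, ?_⟩
    intro p hp a _
    exact rho_lt a (hge1 p hp)
  have hbase : 1 ≤ 2 ^ 2 ^ J := Nat.one_le_two_pow
  have hpowle : ∀ K' ≤ K, (2 ^ 2 ^ J) ^ (K' * b) ≤ (2 ^ 2 ^ J) ^ (K * b) := by
    intro K' hK'
    exact Nat.pow_le_pow_right hbase (Nat.mul_le_mul_right b hK')
  have hYY : 1 ≤ (Y1 * ∏ τ, Y τ) ^ 2 := by
    apply Nat.one_le_pow
    apply Nat.mul_pos hY1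
    exact Finset.prod_pos (fun τ _ => hY τ)
  have hETE : ∀ K' ≤ K, EN.ET K' (P1 (HH X) J ∪ P2') D0 Er ≤ E := by
    intro K' hK'
    exact (ET_mono hK' _ _ _ hErn).trans hE
  have hV1eq : EN.V1 (P1 (HH X) J) = VV δ X := by
    rw [hJ]; rfl
  have hVV0 : 0 ≤ VV δ X := by
    rw [← hV1eq]
    unfold EN.V1
    apply Finset.prod_nonneg
    intro p hp
    have h2 : (1 : ℝ) ≤ p := by exact_mod_cast hge1a p hp
    have : 1 / (p : ℝ) ≤ 1 := by
      rw [div_le_one (by linarith)]; exact h2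
    linarith
  have hxx : ∀ n τ a, - D.cf a * EN.xx rho (P1 (HH X) J) D.S D.g n τ a = xx D n τ a := by
    intro n τ a
    unfold EN.xx xx
    rw [hrg _ _ _ hge1a, hFF (D.S τ) a n
      (fun R hR p hp => hge1b p ((hDS τ R hR).1 hp)), hJ]
    ring
  have hqq : ∀ τ a, D.cf a ^ 2 * (D.g τ ^ 2 * (EN.V1 (P1 (HH X) J) * AC.GG (D.S τ))) =
      qq D τ a := by
    intro τ a
    unfold qq
    rw [hV1eq]
  have hE2 := H2 b J (HH X) D0 (P1 (HH X) J) P2' B rho (kk o) (ee o) w M Ω Er D.S D.g Y Y1 V d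
    (hsetup K2 hK2K) (le_trans (Nat.mul_le_mul_right _ (hpowle K2 hK2K)) hD0) hV hV1 hd1 hPi
    (by rw [hV1eq]; exact hB) (fun τ => ⟨(D.hg τ).1, (D.hg τ).2.trans hC⟩)
    (fun τ R hR => (hDS τ R hR).1) D.h0 D.hd
    (fun U hU hc => hdl U hU (hc.trans (by omega)))
    (fun τ => ⟨hY τ, fun R hR => (hDS τ R hR).2⟩) hY1
  obtain ⟨hE2a, hE2b⟩ := hE2
  have hE4 := H4 b J (HH X) D0 k0 (P1 (HH X) J) P2' B rho (kk o) (ee o) w M Ω Er D.S D.g V
    (hsetup K4 hK4K)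
    (le_trans (le_trans (hpowle K4 hK4K) (Nat.le_mul_of_pos_right _ hYY)) hD0) hV hV1 hPi
    (by rw [hV1eq]; exact hB) (fun τ => ⟨(D.hg τ).1, (D.hg τ).2.trans hC⟩)
    (fun τ R hR => (hDS τ R hR).1)
    (fun U hU hc => (hdl U hU (hc.trans (by omega))).trans hd1)
    (by
      intro m _ hwm a ha _
      have hmS : m ∈ S := by
        by_contra hcon
        apply hwm
        simp only [hw, if_neg hcon]
      have := hk0 m hmS a ha
      have he : P2'.filter (fun p => m % p = rho p a) = P2'.filter (fun p => p ∣ m + a) := by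
        apply Finset.filter_congr
        intro p hp
        exact hr p a m (hge1b p hp)
      rw [he]; exact this)
  intro c hc
  have hcc : ∀ σ, |cc D.cf c0 c σ| ≤ 1 := abs_cc_le D.cf c0 c hc0 D.hc hc
  have hc2 : (0 : ℝ) < c0 ^ (2 * t + 2) := pow_pos hc00 _
  have hc4 : (0 : ℝ) < c0 ^ (4 * t + 4) := pow_pos hc00 _
  have hWWn : ∀ (B' : Finset ℕ) (n : ℕ), AC.WW B' (cc D.cf c0 c) (EN.xx rho (P1 (HH X) J) D.S D.g n) =
      AC.WW B' c (xx D n) / c0 ^ (t + 1) := by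
    intro B' n
    exact WW_cc B' D.cf c0 c _ _ (hxx n)
  have hmain : ∀ B' : Finset ℕ, ∑ σ ∈ AC.cfg t B', cc D.cf c0 c σ ^ 2 *
      AC.occ (fun τ => D.g τ ^ 2 * (EN.V1 (P1 (HH X) J) * AC.GG (D.S τ))) σ =
      ZZ D B' c / c0 ^ (2 * t + 2) := by
    intro B'
    exact main_cc B' D.cf c0 hc00 c _ _ hqq
  have hpow2 : (c0 ^ (t + 1)) ^ 2 = c0 ^ (2 * t + 2) := by ring
  have hpow4 : (c0 ^ (t + 1)) ^ 4 = c0 ^ (4 * t + 4) := by ring
  refine ⟨?_, ?_, ?_⟩
  · have h := hE2a (cc D.cf c0 c) hcc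
    rw [hmain B] at h
    simp only [hWWn] at h
    simp only [hw] at h
    rw [sum_ind S M hM] at h
    simp only [div_pow, hpow2] at h
    rw [← Finset.sum_div, ← mul_div_assoc, ← sub_div, abs_div, abs_of_pos hc2,
      div_le_iff₀ hc2] at h
    refine h.trans ?_
    rw [mul_comm]
    apply mul_le_mul_of_nonneg_left _ hc2.le
    exact EF_mono hK2K hΩ hV hV1 hd0 (hETE K2 hK2K) (ET_nonneg _ _ _ _ hErn)
  · intro a ha
    have h := hE2b SS (fun R hR => (hSS R hR).1) (fun R hR => (hSS R hR).2) a ha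
      (cc D.cf c0 c) hcc
    rw [hmain (B.erase a)] at h
    simp only [hWWn] at h
    simp only [hw] at h
    rw [sum_ind S M hM] at h
    have hsum : ∑ n ∈ S, (AC.WW (B.erase a) c (xx D n) / c0 ^ (t + 1) *
        (EN.rg rho (P1 (HH X) J) a n * AC.FF rho SS (some a) n)) ^ 2 =
        (∑ n ∈ S, (rg (P1 (HH X) J) a n * FS SS a n * AC.WW (B.erase a) c (xx D n)) ^ 2) /
          c0 ^ (2 * t + 2) := by
      rw [Finset.sum_div]
      apply Finset.sum_congr rfl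
      intro n _
      rw [hrg _ _ _ hge1a, hFF SS a n (fun R hR p hp => hge1b p ((hSS R hR).1 hp)), ← hpow2]
      have : c0 ^ (t + 1) ≠ 0 := (pow_pos hc00 _).ne'
      field_simp
    rw [hsum, hV1eq] at h
    have hrew : Ω * (VV δ X * AC.GG SS * (ZZ D (B.erase a) c / c0 ^ (2 * t + 2))) =
        Ω * (VV δ X * AC.GG SS * ZZ D (B.erase a) c) / c0 ^ (2 * t + 2) := by ring
    rw [hrew, ← sub_div, abs_div, abs_of_pos hc2, div_le_iff₀ hc2] at h
    refine h.trans ?_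
    rw [mul_comm]
    apply mul_le_mul_of_nonneg_left _ hc2.le
    exact EF_mono hK2K (mul_nonneg hΩ hVV0) hV hV1 hd0 (hETE K2 hK2K) (ET_nonneg _ _ _ _ hErn)
  · have h := hE4 (cc D.cf c0 c) hcc
    simp only [hWWn] at h
    simp only [hw] at h
    rw [sum_ind S M hM] at h
    have hs4 : ∑ n ∈ S, (AC.WW B c (xx D n) / c0 ^ (t + 1)) ^ 4 =
        (∑ n ∈ S, AC.WW B c (xx D n) ^ 4) / c0 ^ (4 * t + 4) := by
      rw [Finset.sum_div]
      apply Finset.sum_congr rfl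
      intro n _
      rw [div_pow, hpow4]
    rw [hs4, div_le_iff₀ hc4] at h
    refine h.trans ?_
    rw [mul_comm]
    apply mul_le_mul_of_nonneg_left _ hc4.le
    have hKV : (K4 / V) ^ K4 ≤ ((K : ℝ) / V) ^ K := by
      have hKr : (K4 : ℝ) ≤ K := by exact_mod_cast hK4K
      have hK1 : (1 : ℝ) ≤ K := by
        have : 1 ≤ K := hK4.trans hK4K
        exact_mod_cast this
      have h1V : 1 ≤ (K : ℝ) / V := by
        rw [le_div_iff₀ hV]; linarith
      calc ((K4 : ℝ) / V) ^ K4 ≤ ((K : ℝ) / V) ^ K4 := by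
            apply pow_le_pow_left₀ (by positivity)
            exact div_le_div_of_nonneg_right hKr hV.le
        _ ≤ ((K : ℝ) / V) ^ K := pow_le_pow_right₀ h1V hK4K
    apply mul_le_mul
    · exact mul_le_mul_of_nonneg_right hKV (by positivity)
    · have := hETE K4 hK4K
      gcongr
    · have := ET_nonneg K4 (P1 (HH X) J ∪ P2') D0 Er hErn
      positivity
    · positivity

end Pool.Agent.H372R2.PPSM4
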